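import Pool.Agent.N224.Ivy.Main

/-!
# Quadratic polynomials with many invariant ivy objects

For every `n` there is a post-critically finite quadratic polynomial with more than `n` invariant
ivy objects. The parameters are the centres of the real period doubling cascade; for a centre of
period `2 ^ k` there is one invariant ivy object for each level `j = 0, …, k`, represented by a tree
which is a union of `2 ^ j` arcs that meet only at infinity.
-/

set_option autoImplicit false

open Topology Set

namespace Pool.Agent.Results.MP_6faade_an.ManyInvariantIvyObjects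

open Pool.Agent.N224.Ivy

/-- `Ivy(p)` for `p(z) = z ^ 2 + c`: the isotopy classes, relative to the post-critical set, of the
spanning trees for the post-critical set. -/
def IvyObject (c : ℂ) : Type :=
  Quot fun T T' : {T : Set (OnePoint ℂ) // IsSpanningTree (postSet c) T} =>
    Isotopic (postSet c) T.1 T'.1

/-- The isotopy class of a spanning tree. -/
def ivyClass {c : ℂ} {T : Set (OnePoint ℂ)} (hT : IsSpanningTree (postSet c) T) : IvyObject c :=
  Quot.mk _ ⟨T, hT⟩

/-- The spanning trees `T'` and `T` for the post-critical set form a dynamical tree pair `(T', T)`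
of `p(z) = z ^ 2 + c`. The critical values of `p` are `c` and `∞`. -/
structure IsTreePair (c : ℂ) (T' T : Set (OnePoint ℂ)) : Prop where
  map : quad c '' T' ⊆ T
  vert : quad c '' vertexSet (postSet c) T' ⊆ vertexSet (postSet c) T
  value : (c : OnePoint ℂ) ∈ vertexSet (postSet c) T
  value_infty : OnePoint.infty ∈ vertexSet (postSet c) T

/-- The pullback relation: `A` is related to `B` if `A` is the class of `T` and `B` is the class of
`T'` for some dynamical tree pair `(T', T)`. -/
def Pullback {c : ℂ} (A B : IvyObject c) : Prop :=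
  ∃ (T T' : Set (OnePoint ℂ)) (hT : IsSpanningTree (postSet c) T)
    (hT' : IsSpanningTree (postSet c) T'),
    IsTreePair c T' T ∧ A = ivyClass hT ∧ B = ivyClass hT'

/-- For every `n` there is a post-critically finite polynomial `z ^ 2 + c` with more than `n`
invariant ivy objects. -/
theorem _root_.Pool.Agent.Results.MP_6faade_an.ManyInvariantIvyObjects.result :
    ∀ n : ℕ, ∃ c : ℂ, (postSet c).Finite ∧ (n : ℕ∞) < {A : IvyObject c | Pullback A A}.encard := by
  intro n
  obtain ⟨c, hfin, h⟩ := main n
  refine ⟨c, hfin, ?_⟩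
  have h' : ∀ j : Fin (n + 1), ∃ (T : Set (OnePoint ℂ))
      (H : unitInterval → OnePoint ℂ → OnePoint ℂ), IsSpanningTree (postSet c) T ∧
      vertexSet (postSet c) T = postSet c ∧
      numComponents (T \ {OnePoint.infty}) = (2 ^ (j : ℕ) : ℕ) ∧
      IsIsotopy (postSet c) H ∧ quad c '' (H 1 '' T) ⊆ T := fun j => h j (Nat.lt_succ_iff.1 j.2)
  choose T H hT hV hn hH hm using h'
  have hinf : OnePoint.infty ∈ postSet c := mem_insert _ _
  have hc : (c : OnePoint ℂ) ∈ postSet c := mem_insert_of_mem _ ⟨0, rfl⟩
  have hpost : ∀ x ∈ postSet c, quad c x ∈ postSet c := by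
    rintro x (rfl | ⟨m, rfl⟩)
    · exact mem_insert _ _
    · refine mem_insert_of_mem _ ⟨m + 1, ?_⟩
      beta_reduce
      rw [Function.iterate_succ_apply']
  refine lt_encard (φ := fun j => ivyClass (hT j)) ?_ ?_
  · intro j j' he
    let N : IvyObject c → ℕ∞ := Quot.lift (fun T => numComponents (T.1 \ {OnePoint.infty}))
      fun T T' hTT' => hTT'.numComponents_eq hinf
    have h1 : N (ivyClass (hT j)) = N (ivyClass (hT j')) := congrArg N he
    have h2 : numComponents (T j \ {OnePoint.infty}) = numComponents (T j' \ {OnePoint.infty}) := h1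
    rw [hn, hn] at h2
    have h3 : 2 ^ (j : ℕ) = 2 ^ (j' : ℕ) := by exact_mod_cast h2
    exact Fin.ext (Nat.pow_right_injective le_rfl h3)
  · intro j
    obtain ⟨h1, h2⟩ := spanning_isotopic (hT j) (hH j)
    refine ⟨T j, H j 1 '' T j, hT j, h1, ⟨hm j, ?_, ?_, ?_⟩, rfl, ?_⟩
    · rw [h2, hV]
      rintro _ ⟨_, ⟨x, hx, rfl⟩, rfl⟩
      rw [(hH j).fix 1 x hx]
      exact hpost x hx
    · rw [hV]; exact hc
    · rw [hV]; exact hinf
    · exact Quot.sound ⟨H j, hH j, rfl⟩

end Pool.Agent.Results.MP_6faade_an.ManyInvariantIvyObjects
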